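import Pool.Agent.Helper27.BI.S5.St5
import Pool.Agent.Helper27.BI.H.Calc

/-!
# Project BI, stage 5, module THAT

The isotopy from the thin finger push to a finger push which drags along the whole ball of radius `41/200`.
-/

set_option autoImplicit false
set_option linter.unusedSectionVars false
set_option linter.unusedVariables false

open scoped Manifold ContDiff Topology ComplexConjugate
open Set Filter Pool.Agent.Helper65.Barb Pool.Agent.Helper18.BI
open Pool.Agent.Helper70.BI (I4 LD NearEq ld_iff)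
open Pool.Agent.Helper27.BI (e1 nsq_add_le)
open Pool.Agent.Helper27.H

namespace Pool.Agent.Helper27.S5

namespace THAT

/-- a smooth map with a smooth left inverse is a local diffeomorphism -/
theorem ld_of_left {F G : R4 → R4} (hF : ContDiff ℝ ∞ F) (hG : ContDiff ℝ ∞ G)
    (h : ∀ x, G (F x) = x) (p : R4) : LD F p := by
  rw [ld_iff]
  refine ⟨Eventually.of_forall fun q => hF.contDiffAt, ?_⟩
  have d1 : HasFDerivAt F (fderiv ℝ F p) p := (hF.differentiable (by simp) p).hasFDerivAt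
  have d2 : HasFDerivAt G (fderiv ℝ G (F p)) (F p) :=
    (hG.differentiable (by simp) (F p)).hasFDerivAt
  have d3 : HasFDerivAt (G ∘ F) ((fderiv ℝ G (F p)).comp (fderiv ℝ F p)) p := d2.comp p d1
  have e : G ∘ F = id := funext h
  rw [e] at d3
  have d4 := d3.unique (hasFDerivAt_id p)
  intro u v huv
  have h1 : (fderiv ℝ G (F p)) ((fderiv ℝ F p) u) = u := by
    have := congrArg (fun L : R4 →L[ℝ] R4 => L u) d4
    simpa using this
  have h2 : (fderiv ℝ G (F p)) ((fderiv ℝ F p) v) = v := by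
    have := congrArg (fun L : R4 →L[ℝ] R4 => L v) d4
    simpa using this
  rw [← h1, ← h2, huv]

/-- the scale factor -/
noncomputable def kap (c w s : ℝ) : ℝ := 1 - w + w * lam c s

/-- the germs -/
noncomputable def Jt (c : ℝ) (a : ℝ × ℝ) (p : R4) : R4 :=
  (p.1, e1 + (a.1 * -(bfin p.1)) • e1 + kap c a.2 p.1 • (p.2 - e1))

/-- the inverses -/
noncomputable def Jti (c : ℝ) (a : ℝ × ℝ) (p : R4) : R4 :=
  (p.1, e1 + (kap c a.2 p.1)⁻¹ • (p.2 - (e1 + (a.1 * -(bfin p.1)) • e1)))

theorem contDiff_lam (c : ℝ) : ContDiff ℝ ∞ (lam c) := by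
  have h1 : ContDiff ℝ ∞ (fun s : ℝ => step ((s - 7 / 20) / (2 / 25))) :=
    contDiff_step.comp ((contDiff_id.sub contDiff_const).div_const _)
  have h2 : ContDiff ℝ ∞ (fun s : ℝ => step ((13 / 20 - s) / (2 / 25))) :=
    contDiff_step.comp ((contDiff_const.sub contDiff_id).div_const _)
  exact contDiff_const.sub (contDiff_const.mul (h1.mul h2))

theorem lam_mem {c : ℝ} (hc : c ∈ Ioo (0 : ℝ) 1) (s : ℝ) : 0 < lam c s ∧ lam c s ≤ 1 := by
  have h1 := step_mem ((s - 7 / 20) / (2 / 25))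
  have h2 := step_mem ((13 / 20 - s) / (2 / 25))
  have h3 : 0 ≤ step ((s - 7 / 20) / (2 / 25)) * step ((13 / 20 - s) / (2 / 25)) :=
    mul_nonneg h1.1 h2.1
  have h4 : step ((s - 7 / 20) / (2 / 25)) * step ((13 / 20 - s) / (2 / 25)) ≤ 1 :=
    mul_le_one₀ h1.2 h2.1 h2.2
  have hc1 := hc.1
  have hc2 := hc.2
  unfold lam
  constructor <;> nlinarith

theorem lam_out (c : ℝ) {s : ℝ} (hs : s ≤ 7 / 20 ∨ 13 / 20 ≤ s) : lam c s = 1 := by
  unfold lam
  rcases hs with h | h
  · rw [step_of_nonpos (s := (s - 7 / 20) / (2 / 25))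
      (div_nonpos_of_nonpos_of_nonneg (by linarith) (by norm_num))]
    ring
  · rw [step_of_nonpos (s := (13 / 20 - s) / (2 / 25))
      (div_nonpos_of_nonpos_of_nonneg (by linarith) (by norm_num))]
    ring

theorem kap_mem {c : ℝ} (hc : c ∈ Ioo (0 : ℝ) 1) {w : ℝ} (hw : w ∈ Icc (0 : ℝ) 1) (s : ℝ) :
    0 < kap c w s ∧ kap c w s ≤ 1 := by
  obtain ⟨h1, h2⟩ := lam_mem hc s
  obtain ⟨h3, h4⟩ := hw
  unfold kap
  constructor
  · rcases h4.lt_or_eq with h5 | h5
    · nlinarith
    · rw [h5]; linarith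
  · nlinarith

theorem contDiff_Jt (c : ℝ) :
    ContDiff ℝ ∞ (fun z : (ℝ × ℝ) × R4 => Jt c z.1 z.2) := by
  have hl : ContDiff ℝ ∞ (fun z : (ℝ × ℝ) × R4 => lam c z.2.1) :=
    (contDiff_lam c).comp (contDiff_fst.comp contDiff_snd)
  have hb : ContDiff ℝ ∞ (fun z : (ℝ × ℝ) × R4 => bfin z.2.1) :=
    contDiff_bfin.comp (contDiff_fst.comp contDiff_snd)
  have hk : ContDiff ℝ ∞ (fun z : (ℝ × ℝ) × R4 => kap c z.1.2 z.2.1) := by
    unfold kap
    fun_prop
  unfold Jt
  fun_prop

theorem contDiff_Jt1 (c : ℝ) (a : ℝ × ℝ) : ContDiff ℝ ∞ (Jt c a) :=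
  (contDiff_Jt c).comp (f := fun p : R4 => (a, p)) (contDiff_const.prodMk contDiff_id)

theorem contDiff_Jti {c : ℝ} (hc : c ∈ Ioo (0 : ℝ) 1) {a : ℝ × ℝ} (ha : a ∈ Q2) :
    ContDiff ℝ ∞ (Jti c a) := by
  have hl : ContDiff ℝ ∞ (fun z : R4 => lam c z.1) := (contDiff_lam c).comp contDiff_fst
  have hb : ContDiff ℝ ∞ (fun z : R4 => bfin z.1) := contDiff_bfin.comp contDiff_fst
  have hk : ContDiff ℝ ∞ (fun z : R4 => (kap c a.2 z.1)⁻¹) := by
    apply ContDiff.inv
    · unfold kap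
      fun_prop
    · intro z
      exact (kap_mem hc ha.2 z.1).1.ne'
  unfold Jti
  fun_prop

theorem Jti_Jt {c : ℝ} (hc : c ∈ Ioo (0 : ℝ) 1) {a : ℝ × ℝ} (ha : a ∈ Q2) (p : R4) :
    Jti c a (Jt c a p) = p := by
  have hk := (kap_mem hc ha.2 p.1).1.ne'
  unfold Jti Jt
  ext1
  · rfl
  · simp only
    rw [add_sub_cancel_left, smul_smul, inv_mul_cancel₀ hk, one_smul]
    abel

theorem Jt_zero (c : ℝ) (p : R4) : Jt c (0, 0) p = p := by
  unfold Jt kap
  ext1
  · rfl
  · simp

/-- the compact set of the parameters -/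
def Lt : Set R4 := {p | 0 ≤ p.1 ∧ p.1 ≤ 1 ∧ nsq (p.2 - e1) ≤ (41 / 200) ^ 2}

/-- the frozen part -/
def Vt : Set R4 := {p | p.1 < 1 / 10 ∨ 9 / 10 < p.1}

/-- the support -/
def Ut : Set R4 := {p | 1 / 20 < p.1 ∧ p.1 < 19 / 20 ∧ nsq (p.2 - e1) < 49 / 100}

theorem continuous_dist1 : Continuous (fun p : R4 => nsq (p.2 - e1)) :=
  H.continuous_nsq.comp (continuous_snd.sub continuous_const)

theorem isOpen_Vt : IsOpen Vt :=
  (isOpen_lt continuous_fst continuous_const).union (isOpen_lt continuous_const continuous_fst)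

theorem isOpen_Ut : IsOpen Ut :=
  (isOpen_lt continuous_const continuous_fst).inter
    ((isOpen_lt continuous_fst continuous_const).inter
      (isOpen_lt continuous_dist1 continuous_const))

theorem isCompact_Lt : IsCompact Lt := by
  have h : Lt = (fun q : ℝ × R3 => ((q.1, e1 + q.2) : R4)) ''
      (Icc 0 1 ×ˢ {y : R3 | nsq y ≤ (41 / 200) ^ 2}) := by
    ext p
    constructor
    · rintro ⟨h1, h2, h3⟩
      exact ⟨(p.1, p.2 - e1), ⟨⟨h1, h2⟩, h3⟩, by simp⟩
    · rintro ⟨q, ⟨hq1, hq2⟩, rfl⟩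
      refine ⟨hq1.1, hq1.2, ?_⟩
      show nsq (e1 + q.2 - e1) ≤ _
      rw [add_sub_cancel_left]
      exact hq2
  rw [h]
  exact (isCompact_Icc.prod (Pool.Agent.Helper27.BI.CH.isCompact_nsq _)).image
    (continuous_fst.prodMk (continuous_const.add continuous_snd))

theorem fam2_Jt {c : ℝ} (hc : c ∈ Ioo (0 : ℝ) 1) : Fam2 Q2 Lt Vt Ut (Jt c) where
  smooth a ha p hp := Eventually.of_forall fun z => (contDiff_Jt c).contDiffAt
  emb a ha := by
    refine ⟨fun p hp => ld_of_left (contDiff_Jt1 c a) (contDiff_Jti hc ha) (Jti_Jt hc ha) p, ?_⟩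
    intro p hp q hq h
    rw [← Jti_Jt hc ha p, h, Jti_Jt hc ha q]
  froz a ha b hb p hp := by
    have h1 : bfin p.1 = 0 := bfin_out (hp.imp le_of_lt le_of_lt)
    have h2 : lam c p.1 = 1 := by
      apply lam_out
      rcases hp with hp | hp
      · left; linarith
      · right; linarith
    unfold Jt kap
    rw [h1, h2]
    simp
  inU a ha p hp hpV := by
    have hp1 : 1 / 10 ≤ p.1 := by
      by_contra h
      push Not at h
      exact hpV (Or.inl h)
    have hp2 : p.1 ≤ 9 / 10 := by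
      by_contra h
      push Not at h
      exact hpV (Or.inr h)
    refine ⟨?_, ?_, ?_⟩
    · show 1 / 20 < p.1
      linarith
    · show p.1 < 19 / 20
      linarith
    · show nsq (e1 + (a.1 * -(bfin p.1)) • e1 + kap c a.2 p.1 • (p.2 - e1) - e1) < 49 / 100
      have e : e1 + (a.1 * -(bfin p.1)) • e1 + kap c a.2 p.1 • (p.2 - e1) - e1 =
          (a.1 * -(bfin p.1)) • e1 + kap c a.2 p.1 • (p.2 - e1) := by abel
      rw [e]
      obtain ⟨ha1, ha2⟩ := ha.1
      have hb1 := bfin_nonneg p.1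
      have hb2 := bfin_le p.1
      obtain ⟨hk1, hk2⟩ := kap_mem hc ha.2 p.1
      have h1 : nsq ((a.1 * -(bfin p.1)) • e1) ≤ (27 / 100) ^ 2 := by
        rw [H.nsq_smul, H.nsq_e1, mul_one]
        have h2 : a.1 * bfin p.1 ≤ 27 / 100 := by nlinarith
        have h3 : 0 ≤ a.1 * bfin p.1 := mul_nonneg ha1 hb1
        nlinarith
      have h2 : nsq (kap c a.2 p.1 • (p.2 - e1)) ≤ (41 / 200) ^ 2 := by
        rw [H.nsq_smul]
        have h3 := hp.2.2
        have h4 := BI.nsq_nonneg (p.2 - e1)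
        have h5 : kap c a.2 p.1 ^ 2 ≤ 1 := by nlinarith
        calc kap c a.2 p.1 ^ 2 * nsq (p.2 - e1) ≤ 1 * nsq (p.2 - e1) :=
              mul_le_mul_of_nonneg_right h5 h4
          _ ≤ _ := by linarith
      have h3 := nsq_add_le (by norm_num) (by norm_num) h1 h2
      have h4 : ((27 : ℝ) / 100 + 41 / 200) ^ 2 < 49 / 100 := by norm_num
      linarith

end THAT

open THAT in
/-- **THAT.** -/
theorem m_THAT (hCh : StCH4) : StTHAT := by
  intro T T' hT c hc
  obtain ⟨ok, -, F₂, g0, g1, gt, gl, gout, gfar⟩ := hT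
  obtain ⟨P, hP, N, hN, hLN, K, hK, hKU, hPF⟩ := hCh Q2 Lt Vt Ut (Jt c) isCompact_Q2 convex_Q2
    isCompact_Lt isOpen_Vt isOpen_Ut (fam2_Jt hc)
  have hb : ContDiff ℝ ∞ (fun t : ℝ => (step (step t), step t)) :=
    (contDiff_step.comp contDiff_step).prodMk contDiff_step
  have h00 : ((0 : ℝ), (0 : ℝ)) ∈ Q2 := by simp [Q2]
  obtain ⟨F₁, hF, fs, ft⟩ := hPF (fun _ => (0, 0)) (fun t => (step (step t), step t))
    contDiff_const hb (fun _ => h00) (fun t => ⟨step_mem _, step_mem _⟩)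
  have f0 : ∀ x, F₁.f (0, x) = x := by
    intro x
    rw [hF, BI.step_zero, BI.step_zero]
    exact hP _ h00 x
  have fU : ∀ t x, x ∉ Ut → F₁.f (t, x) = x := fun t x hx => fs t x fun h => hx (hKU h)
  have ft' : ∀ (t s : ℝ) (y : R3), s ∈ Icc (0 : ℝ) 1 → nsq y ≤ (41 / 200) ^ 2 →
      F₁.f (t, (s, e1 + y)) =
        (s, (1 - step (step t) * bfin s) • e1 + kap c (step t) s • y) := by
    intro t s y hs hy
    have h1 : ((s, e1 + y) : R4) ∈ N := by
      apply hLN
      refine ⟨hs.1, hs.2, ?_⟩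
      show nsq (e1 + y - e1) ≤ _
      rw [add_sub_cancel_left]
      exact hy
    have h2 := ft t _ h1
    rw [Jt_zero] at h2
    rw [h2]
    show ((s, e1 + (step (step t) * -(bfin s)) • e1 + kap c (step t) s • (e1 + y - e1)) : R4) = _
    rw [add_sub_cancel_left, sub_smul, one_smul, mul_neg, neg_smul, sub_eq_add_neg]
  -- the family
  let H : DFam 𝓘(ℝ, R4) R4 := (F₂.freeze 1).comp (F₂.inv.comp F₁)
  have hH : ∀ t x, H.f (t, x) = F₂.f (1, F₂.g (t, F₁.f (t, x))) := fun t x => rfl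
  have hsupp : ∀ (t : ℝ) (p : R4), (p.1 ≤ 1 / 20 ∨ 19 / 20 ≤ p.1 ∨ 49 / 100 ≤ rsq 1 p) →
      H.f (t, p) = p := by
    intro t p hp
    have h1 : p ∉ Ut := by
      rintro ⟨h1, h2, h3⟩
      rcases hp with hp | hp | hp
      · linarith
      · linarith
      · rw [rsq1_eq] at hp
        linarith
    have h2 : ∀ t, F₂.f (t, p) = p := by
      intro t
      rcases hp with hp | hp | hp
      · exact gout t p.1 p.2 (Or.inl (by linarith))
      · exact gout t p.1 p.2 (Or.inr (by linarith))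
      · exact gfar t p (le_trans (by norm_num) hp)
    rw [hH, fU t p h1, DFam.g_eq (h2 t), h2 1]
  refine ⟨H, ?_, ?_, hsupp, ?_⟩
  · intro x
    rw [hH, f0, DFam.g_eq (g0 x), g1]
  · intro t s
    by_cases hs : s ∈ Icc (0 : ℝ) 1
    · have h1 := ft' t s 0 hs (by norm_num [nsq])
      have h2 := gt t s 0 (by norm_num [nsq])
      have h3 := gt 1 s 0 (by norm_num [nsq])
      rw [add_zero] at h1 h2 h3
      rw [smul_zero] at h1
      rw [hH, h1, ← h2, F₂.gf, h3, BI.step_one, BI.step_one, one_mul, add_zero]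
      rfl
    · have hs' : s ≤ 1 / 20 ∨ 19 / 20 ≤ s := by
        rcases le_or_gt s 0 with h | h
        · left; linarith
        · right
          by_contra h'
          push Not at h'
          exact hs ⟨h.le, by linarith⟩
      have h1 := hsupp t (s, e1) (hs'.imp id Or.inl)
      have h2 : bfin s = 0 := bfin_out (by
        rcases hs' with h | h
        · left; linarith
        · right; linarith)
      rw [h1]
      unfold z0
      rw [h2, sub_zero, one_smul]
  · intro s y hy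
    by_cases hs : s ∈ Icc (0 : ℝ) 1
    · rw [hH, F₂.fg, ft' 1 s y hs hy, BI.step_one, BI.step_one, one_mul]
      unfold z0 THAT.kap
      rw [sub_self, zero_add, one_mul]
    · have hs' : s ≤ 1 / 20 ∨ 19 / 20 ≤ s := by
        rcases le_or_gt s 0 with h | h
        · left; linarith
        · right
          by_contra h'
          push Not at h'
          exact hs ⟨h.le, by linarith⟩
      have h1 := hsupp 1 (s, e1 + y) (hs'.imp id Or.inl)
      have h2 : bfin s = 0 := bfin_out (by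
        rcases hs' with h | h
        · left; linarith
        · right; linarith)
      have h3 : lam c s = 1 := lam_out c (by
        rcases hs' with h | h
        · left; linarith
        · right; linarith)
      rw [h1]
      unfold z0
      rw [h2, h3, sub_zero, one_smul, one_smul]

end Pool.Agent.Helper27.S5
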